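import Pool.Agent.Lib.MP_1df68a_gt.Defs
import Pool.Agent.Lib.MP_1df68a_gt.Coset
import Pool.Agent.Lib.MP_1df68a_gt.Transfer

set_option autoImplicit false

/-! # Asymptotic property C for amalgams with compatible actions

Let `H`, `K` (= `G false`, `G true`) be groups with asymptotic property C and `C` a common
subgroup. Suppose that
* `N ≤ C` is a subgroup such that the coset spaces `H/N` and `K/N` carry left-invariant metrics
  with finite balls having asymptotic property C (e.g. `N` trivial; or `N` normal in `H` and `K`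
  and `H/N`, `K/N` have asymptotic property C);
* `H` and `K` act by isometries on a metric space `Y` with finite balls which has asymptotic
  property C, the two actions agree on `C`, and `N` fixes a point `y₀ : Y`;
* if `C₀` is the stabiliser of `y₀` in `C`, then `C₀/N` has finite asymptotic dimension.
Then `H *_C K` has asymptotic property C. -/

namespace Pool.Agent.Results.MP_1df68a_gt.FiberedC

open Pool.Agent.Lib.MP_1df68a_gt Monoid Monoid.PushoutI

theorem result :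
    ∀ (G : Bool → Type) [∀ i, Group (G i)] (C : Type) [Group C] (φ : ∀ i, C →* G i),
      (∀ i, Function.Injective (φ i)) →
      -- `H` and `K` have asymptotic property C
      (∀ i, ∃ d : G i → G i → ℝ, ProperMetric d ∧ (∀ g x y : G i, d (g * x) (g * y) = d x y) ∧
        HasAPC d) →
      ∀ N : Subgroup C,
      -- `H/N` and `K/N` have asymptotic property C
      (∀ i, ∃ d : G i ⧸ N.map (φ i) → G i ⧸ N.map (φ i) → ℝ, ProperMetric d ∧
        (∀ (g : G i) (x y : G i ⧸ N.map (φ i)), d (g • x) (g • y) = d x y) ∧ HasAPC d) →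
      -- the actions of `H` and `K` on `Y`
      ∀ (Y : Type) (dY : Y → Y → ℝ) (a : ∀ i, G i →* Equiv.Perm Y) (y₀ : Y),
      ProperMetric dY → HasAPC dY →
      (∀ i (g : G i) (x y : Y), dY (a i g x) (a i g y) = dY x y) →
      (∀ c : C, a false (φ false c) = a true (φ true c)) →
      (∀ c ∈ N, a true (φ true c) y₀ = y₀) →
      -- `C₀/N` has finite asymptotic dimension
      (∃ d : C ⧸ N → C ⧸ N → ℝ, ProperMetric d ∧
        (∀ (g : C) (x y : C ⧸ N), d (g • x) (g • y) = d x y) ∧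
        FinAsdimOn d {x | ∃ c : C, a true (φ true c) y₀ = y₀ ∧ (c : C ⧸ N) = x}) →
      -- conclusion
      ∀ d : PushoutI φ → PushoutI φ → ℝ, ProperMetric d →
        (∀ g x y : PushoutI φ, d (g * x) (g * y) = d x y) → HasAPC d := by
  intro G _ C _ φ hφ hG N hQ Y dY a y₀ hY hYC hYa hac hNy hC d hd hinv R hR
  have hcount : Countable (PushoutI φ) := by
    rw [← Set.countable_univ_iff]
    have : (Set.univ : Set (PushoutI φ)) = ⋃ n : ℕ, {x | d 1 x ≤ n} := by
      symm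
      rw [Set.eq_univ_iff_forall]
      intro x
      obtain ⟨n, hn⟩ := exists_nat_ge (d 1 x)
      exact Set.mem_iUnion.2 ⟨n, hn⟩
    rw [this]
    exact Set.countable_iUnion fun n => (hd.fin 1 n).countable
  set M := pushAmalg hφ with hM
  obtain ⟨w, hw⟩ := exists_adm M.letters
    (by rintro s ⟨i, hi⟩; exact ⟨i, inv_mem hi⟩)
    (by
      intro g
      obtain ⟨l, hl, h⟩ := M.gen g
      exact ⟨l, hl, h⟩)
  set N' : Subgroup (PushoutI φ) := N.map (base φ) with hN'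
  have hNS : ∀ n ∈ N', n ∈ M.letters := by
    rintro _ ⟨c, -, rfl⟩
    exact ⟨true, φ true c, of_apply_eq_base φ true c⟩
  have hNC : ∀ n ∈ N', n ∈ M.C := by
    rintro _ ⟨c, -, rfl⟩
    exact ⟨c, rfl⟩
  have hNi : ∀ i (g : G i), (of i : G i →* PushoutI φ) g ∈ N' ↔ g ∈ N.map (φ i) := by
    intro i g
    constructor
    · rintro ⟨c, hc, hcg⟩
      refine ⟨c, hc, ?_⟩
      apply of_injective hφ i
      rw [of_apply_eq_base]
      exact hcg
    · rintro ⟨c, hc, rfl⟩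
      exact ⟨c, hc, (of_apply_eq_base φ i c).symm⟩
  have hNb : ∀ c : C, base φ c ∈ N' ↔ c ∈ N := by
    intro c
    constructor
    · rintro ⟨c', hc', hcc⟩
      rwa [base_injective hφ hcc] at hc'
    · intro hc
      exact ⟨c, hc, rfl⟩
  -- `N'` is commensurated
  have hcomm : ∀ s ∈ M.letters, ∃ F : Set (PushoutI φ), F.Finite ∧
      ∀ n ∈ N', ∃ f ∈ F, f⁻¹ * (n * s) ∈ N' := by
    rintro _ ⟨i, g, rfl⟩
    obtain ⟨δ, hδ, hδi, -⟩ := hQ i
    refine ⟨(fun q : G i ⧸ N.map (φ i) => (of i : G i →* PushoutI φ) q.out) ''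
      {q | δ ((1 : G i) : G i ⧸ N.map (φ i)) q ≤
        δ ((1 : G i) : G i ⧸ N.map (φ i)) (g : G i ⧸ N.map (φ i))},
      (hδ.fin _ _).image _, ?_⟩
    rintro _ ⟨c, hc, rfl⟩
    refine ⟨_, ⟨((φ i c * g : G i) : G i ⧸ N.map (φ i)), ?_, rfl⟩, ?_⟩
    · show δ _ _ ≤ _
      have h1 := hδi (φ i c) ((1 : G i) : G i ⧸ N.map (φ i)) (g : G i ⧸ N.map (φ i))
      have h2 : φ i c • ((1 : G i) : G i ⧸ N.map (φ i)) = ((1 : G i) : G i ⧸ N.map (φ i)) := by
        show ((φ i c * 1 : G i) : G i ⧸ N.map (φ i)) = _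
        rw [QuotientGroup.eq, mul_one, mul_one]
        exact inv_mem ⟨c, hc, rfl⟩
      have h3 : φ i c • (g : G i ⧸ N.map (φ i)) = ((φ i c * g : G i) : G i ⧸ N.map (φ i)) := rfl
      rw [h2, h3] at h1
      exact h1.le
    · show ((of i : G i →* PushoutI φ) _)⁻¹ * (base φ c * (of i : G i →* PushoutI φ) g) ∈ N'
      rw [← of_apply_eq_base φ i c, ← map_mul, ← map_inv, ← map_mul, hNi]
      rw [← QuotientGroup.eq, QuotientGroup.out_eq']
  have hw0 := adm0_w0 (N := N') hw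
  have hpos : ∀ s, s ∉ M.C → 1 ≤ w0 w N' s := by
    intro s hs
    rw [w0_notMem (fun h => hs (hNC s h))]
    exact hw.pos s
  -- the action on `Y`
  let α : PushoutI φ →* Equiv.Perm Y := PushoutI.lift a ((a true).comp (φ true)) (by
    intro i
    ext c x
    cases i with
    | false => simp [hac]
    | true => rfl)
  have hαb : ∀ c, α (base φ c) = a true (φ true c) := fun c => by
    show PushoutI.lift a ((a true).comp (φ true)) _ (base φ c) = _
    simp
  have hαo : ∀ i (g : G i), α (of i g) = a i g := fun i g => by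
    show PushoutI.lift a ((a true).comp (φ true)) _ (of i g) = _
    simp
  have hαi : ∀ g x y, dY (α g x) (α g y) = dY x y := by
    intro g
    induction g using PushoutI.induction_on with
    | of i g => intro x y; rw [hαo]; exact hYa i g x y
    | base c => intro x y; rw [hαb]; exact hYa true _ x y
    | mul g g' h h' => intro x y; rw [map_mul, Equiv.Perm.mul_apply, Equiv.Perm.mul_apply, h, h']
  have hNα : ∀ n ∈ N', α n y₀ = y₀ := by
    rintro _ ⟨c, hc, rfl⟩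
    rw [hαb]
    exact hNy c hc
  have hαfin : ∀ t, ∃ K, ∀ q : Y, ∃ F : Finset Y, F.card ≤ K ∧ ∀ x c, α x y₀ = q →
      wd M.letters (w0 w N') x c ≤ t → α c y₀ ∈ F := by
    intro t
    classical
    obtain ⟨F, hF, hFt⟩ := finite_ball0 (N := N') hw hcomm t
    obtain ⟨B, hB⟩ := (hF.image (fun f => dY y₀ (α f y₀))).bddAbove
    have hball := hY.fin y₀ B
    refine ⟨hball.toFinset.card, fun q => ?_⟩
    by_cases hq : ∃ x, α x y₀ = q
    · obtain ⟨x₀, hx₀⟩ := hq
      refine ⟨hball.toFinset.image (fun y => α x₀ y), Finset.card_image_le, ?_⟩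
      intro x c hx hxc
      obtain ⟨f, hf, hfN⟩ := hFt _ hxc
      have h1 : α f y₀ = α (x⁻¹ * c) y₀ := by
        have := hNα _ hfN
        rw [map_mul, map_inv, Equiv.Perm.mul_apply, Equiv.Perm.inv_eq_iff_eq] at this
        exact this.symm
      have h2 : dY y₀ (α f y₀) ≤ B := hB ⟨f, hf, rfl⟩
      rw [Finset.mem_image]
      refine ⟨α (x₀⁻¹ * c) y₀, ?_, ?_⟩
      · rw [hball.mem_toFinset]
        show dY y₀ _ ≤ B
        have h3 : dY y₀ (α (x₀⁻¹ * c) y₀) = dY (α x₀ y₀) (α c y₀) := by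
          rw [← hαi x₀ y₀ (α (x₀⁻¹ * c) y₀), ← Equiv.Perm.mul_apply, ← map_mul,
            mul_inv_cancel_left]
        have h4 : dY y₀ (α (x⁻¹ * c) y₀) = dY (α x y₀) (α c y₀) := by
          rw [← hαi x y₀ (α (x⁻¹ * c) y₀), ← Equiv.Perm.mul_apply, ← map_mul,
            mul_inv_cancel_left]
        rw [h3, hx₀, ← hx, ← h4, ← h1]
        exact h2
      · rw [← Equiv.Perm.mul_apply, ← map_mul, mul_inv_cancel_left]
    · exact ⟨∅, by simp, fun x c hx _ => absurd ⟨x, hx⟩ hq⟩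
  -- covers of the two factors, modulo `N`
  have hH0 : ∀ i, ∀ r : ℕ → ℕ, ∃ n D, ∃ A : ℕ → Set (PushoutI φ),
      (∀ x ∈ M.H i, ∃ k < n, x ∈ A k) ∧
      ∀ k < n, Bd (wd M.letters (w0 w N')) (A k) (r k) D := by
    intro i r
    obtain ⟨δ, hδ, hδi, hδC⟩ := hQ i
    obtain ⟨hb1, hb2⟩ := coset_bounds hw hNS hcomm (of i : G i →* PushoutI φ) (N.map (φ i))
      (hNi i) δ hδi (hδ.fin _)
    choose ρ hρ0 hρ using fun k => hb1 (r k)
    obtain ⟨n, U, hU1, hU2, hU3⟩ := hδC ρ hρ0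
    obtain ⟨D, hD⟩ := coarse_of_real hw0.isPM (fun g : G i => (g : G i ⧸ N.map (φ i)))
      (of i : G i →* PushoutI φ) δ n U r ρ (fun k _ => hρ k) hb2 hU1 hU2
    refine ⟨n, D, _, ?_, hD⟩
    rintro x ⟨g, rfl⟩
    obtain ⟨k, hk, V, hV, hg⟩ := hU3 (g : G i ⧸ N.map (φ i))
    exact ⟨k, hk, g, ⟨V, hV, hg⟩, rfl⟩
  -- covers of the stabiliser of `y₀` in `C`, modulo `N`
  have hC0 : ∃ m : ℕ, ∀ r, ∃ D, ∃ S : ℕ → Set (PushoutI φ),
      (∀ x ∈ M.C, α x y₀ = y₀ → ∃ k < m, x ∈ S k) ∧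
      ∀ k < m, Bd (wd M.letters (w0 w N')) (S k) r D := by
    obtain ⟨δ, hδ, hδi, m, hδm⟩ := hC
    refine ⟨m, fun r => ?_⟩
    obtain ⟨hb1, hb2⟩ := coset_bounds hw hNS hcomm (base φ) N hNb δ hδi (hδ.fin _)
    obtain ⟨ρ, hρ0, hρ⟩ := hb1 r
    obtain ⟨U, hU1, hU2, hU3⟩ := hδm ρ hρ0
    obtain ⟨D, hD⟩ := coarse_of_real hw0.isPM (fun g : C => (g : C ⧸ N)) (base φ) δ m U
      (fun _ => r) (fun _ => ρ) (fun k _ => hρ) hb2 hU1 hU2
    refine ⟨D, _, ?_, hD⟩
    rintro x ⟨c, rfl⟩ hx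
    rw [hαb] at hx
    obtain ⟨k, hk, V, hV, hc⟩ := hU3 (c : C ⧸ N) ⟨c, hx, rfl⟩
    exact ⟨k, hk, c, ⟨V, hV, hc⟩, rfl⟩
  obtain ⟨m, hC0⟩ := hC0
  -- the pushout modulo `N`
  have hbase : ∀ r : ℕ → ℕ, ∃ n D, ∃ A : ℕ → Set (PushoutI φ), (∀ x, ∃ k < n, x ∈ A k) ∧
      ∀ k < n, Bd (wd M.letters (w0 w N')) (A k) (r k) D :=
    action_fibration hw hcomm α y₀ hNα dY hY.self hY.symm hY.tri hαi (hY.fin y₀) hYC
      (M.main_coverR α y₀ hw0 hpos m hαfin hC0 hH0)
  -- the subgroup `N`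
  have hNcov : ∀ r : ℕ → ℕ, ∃ n D, ∃ A : ℕ → Set (PushoutI φ),
      (∀ x ∈ N', ∃ k < n, x ∈ A k) ∧ ∀ k < n, Bd (wd M.letters w) (A k) (r k) D := by
    intro r
    obtain ⟨dG, hdG, hdGi, hGU⟩ := hG true
    choose ρ hρ hρr using fun k => exists_bound_dist hw (of true : G true →* PushoutI φ)
      (of_injective hφ true) dG (r k)
    obtain ⟨n, U, hU1, hU2, hU3⟩ := hGU ρ hρ
    obtain ⟨D, hD⟩ := coarse_of_metric (S := M.letters) (w := w) (of true : G true →* PushoutI φ)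
      dG hdGi (hdG.fin 1) n U r ρ (fun k _ => hρr k) hU1 hU2
    refine ⟨n, D, fun k => (of true : G true →* PushoutI φ) '' ⋃₀ U k, ?_, hD⟩
    rintro x ⟨c, -, rfl⟩
    obtain ⟨k, hk, V, hV, hcV⟩ := hU3 (φ true c)
    exact ⟨k, hk, φ true c, ⟨V, hV, hcV⟩, of_apply_eq_base φ true c⟩
  choose r hr using fun k =>
    exists_bound_len (S := M.letters) (w := w) (fun g : PushoutI φ => g) d (hd.fin 1) (R k)
  obtain ⟨n, D, A, hcov, hA⟩ := coset_fibration hw hNS hcomm hbase hNcov r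
  obtain ⟨U, hU1, hU2, hU3⟩ := metric_of_coarse hw d hinv n D A r R
    (fun k _ => hr k) hA hcov
  exact ⟨n, U, hU1, hU2, hU3⟩

end Pool.Agent.Results.MP_1df68a_gt.FiberedC
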