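import Pool.Agent.Lib.MP_1df68a_gt.Defs
import Pool.Agent.Lib.MP_1df68a_gt.LM.Stab22
import Pool.Agent.Lib.MP_1df68a_gt.LM.Fibered22

set_option autoImplicit false

/-! # Asymptotic property C for amalgams with many compatible endomorphisms

Let `H`, `K` (= `G false`, `G true`) be groups with asymptotic property C and `C` a common
subgroup. Suppose that
* `H` and `K` act by isometries on a metric space `Y` with finite balls which has asymptotic
  property C, the two actions agree on `C`, and `C` is transitive on the `H`-orbit and on the
  `K`-orbit of a point `y₀ : Y` (for instance `Y` is a point); let `H₀`, `K₀`, `C₀` be the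
  stabilisers of `y₀`;
* for all finite sets `A ⊆ H` and `B ⊆ K` there are endomorphisms `p` of `H₀`, `q` of `K₀` and `t`
  of `C₀` such that `p` and `q` restrict to `t` on `C₀`, `p` is the identity on `A ∩ H₀`, `q` is
  the identity on `B ∩ K₀`, and `t(C₀)` has finite asymptotic dimension.
Then `H *_C K` has asymptotic property C. (The asymptotic dimension of `C` may be infinite, and
`C` need not be close to a normal subgroup.) -/

namespace Pool.Agent.Results.MP_1df68a_gt.LocalEndomorphisms

open Pool.Agent.Lib.MP_1df68a_gt Monoid Monoid.PushoutI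

theorem result :
    ∀ (G : Bool → Type) [∀ i, Group (G i)] (C : Type) [Group C] (φ : ∀ i, C →* G i),
      (∀ i, Function.Injective (φ i)) →
      -- `H` and `K` have asymptotic property C
      (∀ i, APCGroup (G i)) →
      -- the actions of `H` and `K` on `Y`
      ∀ (Y : Type) (dY : Y → Y → ℝ) (a : ∀ i, G i →* Equiv.Perm Y) (y₀ : Y),
      ProperMetric dY → HasAPC dY →
      (∀ i (g : G i) (x y : Y), dY (a i g x) (a i g y) = dY x y) →
      ∀ hac : ∀ c : C, a false (φ false c) = a true (φ true c),
      -- `C` is transitive on the orbits of `y₀`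
      (∀ i (g : G i), ∃ c : C, a i g y₀ = a i (φ i c) y₀) →
      -- the stabilisers `H₀`, `K₀`, `C₀` of `y₀` have many compatible endomorphisms
      LocalEndos (smap φ a y₀ hac) →
      -- conclusion
      ∀ d : PushoutI φ → PushoutI φ → ℝ, ProperMetric d →
        (∀ g x y : PushoutI φ, d (g * x) (g * y) = d x y) → HasAPC d := by
  intro G _ C _ φ hφ hG Y dY a y₀ hY hYC hYa hac htr h d hd hdi
  exact amalgam_fibered hφ hG dY hY hYC hYa hac htr h d hd hdi

end Pool.Agent.Results.MP_1df68a_gt.LocalEndomorphisms
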