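import Pool.Agent.Lib.MP_1df68a_gt.Defs
import Pool.Agent.Lib.MP_1df68a_gt.PG.Final45
import Pool.Agent.Lib.MP_1df68a_gt.PG.M1_22
import Pool.Agent.Lib.MP_1df68a_gt.PG.M2_45
import Pool.Agent.Lib.MP_1df68a_gt.PG.M3_45
import Pool.Agent.Lib.MP_1df68a_gt.PG.M4_22
import Pool.Agent.Lib.MP_1df68a_gt.PG.A_67
import Pool.Agent.Lib.MP_1df68a_gt.PG.B_67
import Pool.Agent.Lib.MP_1df68a_gt.PG.K22

set_option autoImplicit false

/-! # Asymptotic property C for amalgams over subgroups of locally polynomial growth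

Let `H`, `K` (= `G false`, `G true`) be groups with asymptotic property C and `C` a common
subgroup. Suppose that for every finitely generated subgroup `F` of `H *_C K` there is a `k` such
that, for all `g` in `H *_C K`, every finite subset `S` of `C` which is conjugate by `g` into `F`
has polynomial growth of degree at most `k`. Then `H *_C K` has asymptotic property C. -/

namespace Pool.Agent.Results.MP_1df68a_gt.PolyC

open Pool.Agent.Lib.MP_1df68a_gt Monoid Monoid.PushoutI

theorem result :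
    ∀ (G : Bool → Type) [∀ i, Group (G i)] (C : Type) [Group C] (φ : ∀ i, C →* G i),
      (∀ i, Function.Injective (φ i)) →
      -- `H` and `K` have asymptotic property C
      (∀ i, ∃ d : G i → G i → ℝ, ProperMetric d ∧ (∀ g x y : G i, d (g * x) (g * y) = d x y) ∧
        HasAPC d) →
      -- the growth hypothesis on `C`
      (∀ F : Subgroup (PushoutI φ), F.FG → ∃ k : ℕ, ∀ (g : PushoutI φ) (S : Set C), S.Finite →
        (∀ s ∈ S, g⁻¹ * base φ s * g ∈ F) → ∃ a : ℕ, ∀ n : ℕ,
          {x : C | ∃ l : List C, l.length ≤ n ∧ (∀ s ∈ l, s ∈ S) ∧ l.prod = x}.ncard ≤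
            a * (n + 1) ^ k) →
      -- conclusion
      ∀ d : PushoutI φ → PushoutI φ → ℝ, ProperMetric d →
        (∀ g x y : PushoutI φ, d (g * x) (g * y) = d x y) → HasAPC d := by
  intro G _ C _ φ hφ hG hC d hd hinv
  refine PG.polyC (PG.stK_of (PG.stA_67 PG.stM1 PG.stM2 PG.stM3 PG.stM4b)
    (PG.stB_67 PG.stM1 PG.stM2 PG.stM3 PG.stM4b PG.stM4c)) G C φ hφ hG ?_ d hd hinv
  intro F hF
  obtain ⟨k, hk⟩ := hC F hF
  refine ⟨k, fun g S hS hSF => ?_⟩
  have hinj : Function.Injective (base φ) := base_injective hφ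
  obtain ⟨a, ha⟩ := hk g (base φ ⁻¹' S) (hS.preimage hinj.injOn) (fun s hs => (hSF _ hs).2)
  refine ⟨a, fun n => le_trans (le_of_eq ?_) (ha n)⟩
  rw [← Set.ncard_image_of_injective _ hinj]
  congr 1
  ext x
  constructor
  · rintro ⟨l, hl, hls, rfl⟩
    have hex : ∀ s ∈ l, ∃ c : C, base φ c = s := fun s hs => (hSF s (hls s hs)).1
    choose f hf using hex
    refine ⟨(l.attach.map fun s => f s.1 s.2).prod, ⟨l.attach.map fun s => f s.1 s.2,
      by simpa using hl, ?_, rfl⟩, ?_⟩
    · intro c hc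
      obtain ⟨s, -, rfl⟩ := List.mem_map.1 hc
      show base φ _ ∈ S
      rw [hf]
      exact hls _ s.2
    · rw [map_list_prod, List.map_map]
      have : (⇑(base φ) ∘ fun s : {x // x ∈ l} => f s.1 s.2) = Subtype.val := by
        funext s
        exact hf s.1 s.2
      rw [this, List.attach_map_subtype_val]
  · rintro ⟨c, ⟨l, hl, hls, rfl⟩, rfl⟩
    refine ⟨l.map (base φ), by simpa using hl, ?_, by rw [map_list_prod]⟩
    intro s hs
    obtain ⟨c, hc, rfl⟩ := List.mem_map.1 hs
    exact hls c hc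

end Pool.Agent.Results.MP_1df68a_gt.PolyC
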